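import Mathlib
import Pool.Agent.Y298.CA.Stm
import Pool.Agent.Y298.CD.Ver

/-!
# No-hit constants uniform in the class
-/

set_option autoImplicit false

open Set Filter Metric MeasureTheory

namespace Pool.Agent.Y356.CA

open Pool.Agent.TH279.MD Pool.Agent.Y298.SH Pool.Agent.Y298.SH.CD Pool.Agent.Y298.CA
open Pool.Agent.Y298.SH.CE (MG RR exists_MG)
open Pool.Agent.W746.LD (Univ KC exists_KC)

theorem nh_core (d : ℕ) (C₁ lam θ A : ℝ) (hd : 2 ≤ d) (hC₁ : 1 ≤ C₁) (hlam : 1 < lam)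
    (hθ : 1 < θ) (hθl : θ < lam) (hA : 1 ≤ A) :
    ∃ R₀ : ℝ, 0 < R₀ ∧ ∀ (v P : ℕ → ℝ), (∀ j, 0 ≤ v j) → (∀ j, 0 < P j) →
      (∀ j, P (j + 1) = d * v j ^ (d - 1) * P j) → (∀ j, P j ≤ (2 * d) ^ j) →
      (∀ j, lam ^ j ≤ C₁ * P j) →
      (∀ δ : ℝ, 0 < δ → δ ≤ R₀ → ∀ j, v j < 4 * δ → A * θ ^ j / P j * δ ≤ δ ^ d) ∧
      ∀ j, A * θ ^ j / P j ≤ A * C₁ := by
  have hdR : (2 : ℝ) ≤ d := by exact_mod_cast hd
  have hl0 : 0 < lam := by linarith
  have hθ0 : 0 < θ := by linarith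
  set L : ℝ := 3 * d * 16 ^ d with hL
  have hL0 : 0 < L := by positivity
  have hr0 : 0 < θ / lam := by positivity
  have hr1 : θ / lam < 1 := by
    rw [div_lt_one hl0]
    exact hθl
  obtain ⟨k₀, hk₀⟩ := exists_pow_lt_of_lt_one (by positivity : 0 < 1 / (L * A * C₁)) hr1
  set r : ℝ := min 1 (1 / (C₁ * d * (2 * d) ^ k₀)) with hr
  have hrp : 0 < r := lt_min one_pos (by positivity)
  refine ⟨r / 4, by positivity, ?_⟩
  intro v P hv hP hPs hPle hexp
  have hfar : ∀ j, v j < r → k₀ ≤ j := by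
    intro j hj
    by_contra hcon
    rw [not_le] at hcon
    have h1 : v j < 1 := hj.trans_le (min_le_left _ _)
    have h2 : v j < 1 / (C₁ * d * (2 * d) ^ k₀) := hj.trans_le (min_le_right _ _)
    rw [lt_div_iff₀ (by positivity)] at h2
    have h3 : v j ^ (d - 1) ≤ v j := by
      calc v j ^ (d - 1) ≤ v j ^ 1 := pow_le_pow_of_le_one (hv j) h1.le (by omega)
        _ = v j := pow_one _
    have h4 : P j ≤ (2 * d) ^ k₀ := (hPle j).trans (pow_le_pow_right₀ (by linarith) hcon.le)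
    have h5 := hexp (j + 1)
    rw [hPs] at h5
    have h6 : (1 : ℝ) ≤ lam ^ (j + 1) := one_le_pow₀ hlam.le
    have h7 : C₁ * (d * v j ^ (d - 1) * P j) ≤ C₁ * (d * v j * (2 * d) ^ k₀) := by
      have := hv j
      have := (hP j).le
      gcongr
    have h8 : C₁ * (d * v j * (2 * d) ^ k₀) = v j * (C₁ * d * (2 * d) ^ k₀) := by ring
    linarith
  have hQ : ∀ k, A * θ ^ k / P k ≤ A * C₁ * (θ / lam) ^ k := by
    intro k
    have h1 := hexp k
    have h2 := hP k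
    rw [div_pow, div_le_iff₀ h2]
    calc A * θ ^ k = A * (θ ^ k / lam ^ k) * lam ^ k := by field_simp
      _ ≤ A * (θ ^ k / lam ^ k) * (C₁ * P k) := by gcongr
      _ = _ := by ring
  refine ⟨?_, ?_⟩
  · intro δ hδ hδr j hj
    have hjr : v j < r := by linarith
    have h1 := hfar j hjr
    have h3 : (θ / lam) ^ j ≤ 1 / (L * A * C₁) :=
      (pow_le_pow_of_le_one hr0.le hr1.le h1).trans hk₀.le
    rw [div_pow, div_le_div_iff₀ (by positivity) (by positivity), one_mul] at h3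
    have h4 : lam ^ j ≤ lam ^ (j + 1) := pow_le_pow_right₀ hlam.le (by omega)
    have h5 : C₁ * (L * (A * θ ^ j)) ≤ C₁ * P (j + 1) := by
      calc C₁ * (L * (A * θ ^ j)) = θ ^ j * (L * A * C₁) := by ring
        _ ≤ lam ^ j := h3
        _ ≤ lam ^ (j + 1) := h4
        _ ≤ _ := hexp (j + 1)
    have h6 : L * (A * θ ^ j) ≤ P (j + 1) := le_of_mul_le_mul_left h5 (by positivity)
    rw [hPs] at h6
    have hPj := hP j
    have hpow : v j ^ (d - 1) ≤ (4 * δ) ^ (d - 1) := pow_le_pow_left₀ (hv j) hj.le _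
    have h7 : L * (A * θ ^ j) ≤ d * (4 * δ) ^ (d - 1) * P j := by
      refine h6.trans ?_
      gcongr
    rw [div_mul_eq_mul_div, div_le_iff₀ hPj]
    have h8 : δ * δ ^ (d - 1) = δ ^ d := by
      rw [← pow_succ']; congr 1; omega
    have h9 : (4 : ℝ) ^ (d - 1) ≤ 16 ^ d := by
      calc (4 : ℝ) ^ (d - 1) ≤ 4 ^ d := pow_le_pow_right₀ (by norm_num) (by omega)
        _ ≤ 16 ^ d := by gcongr; norm_num
    have h10 : L * (A * θ ^ j * δ) ≤ L * (δ ^ d * P j) := by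
      calc L * (A * θ ^ j * δ) = L * (A * θ ^ j) * δ := by ring
        _ ≤ d * (4 * δ) ^ (d - 1) * P j * δ := by gcongr
        _ = d * 4 ^ (d - 1) * (δ * δ ^ (d - 1)) * P j := by rw [mul_pow]; ring
        _ = d * 4 ^ (d - 1) * (δ ^ d * P j) := by rw [h8]; ring
        _ ≤ d * 16 ^ d * (δ ^ d * P j) := by gcongr
        _ ≤ L * (δ ^ d * P j) := by
            rw [hL]
            have : 0 < δ ^ d * P j := by positivity
            have h11 : (0 : ℝ) < d * 16 ^ d := by positivity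
            nlinarith
    exact le_of_mul_le_mul_left h10 hL0
  · intro j
    refine (hQ j).trans ?_
    have h1 : (θ / lam) ^ j ≤ 1 := pow_le_one₀ hr0.le hr1.le
    calc A * C₁ * (θ / lam) ^ j ≤ A * C₁ * 1 := by gcongr
      _ = A * C₁ := mul_one _

theorem nh : S_NH := by
  intro d C₁ lam C0 c0 hd hC₁ hlam K
  have hθ1 : 1 < (1 + lam) / 2 := by linarith
  obtain ⟨τ, A, G⟩ := exists_MG K hθ1
  obtain ⟨R₀, hR₀, H⟩ := nh_core d C₁ lam ((1 + lam) / 2) A hd hC₁ hlam hθ1 (by linarith) G.A1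
  have hA := G.A1
  refine ⟨(1 + lam) / 2, τ, A, R₀, A * C₁, G, hR₀, by positivity, ?_⟩
  intro c h
  obtain ⟨H1, H2⟩ := H (fun j => ‖zz d c j‖) (Pd d c) (fun j => norm_nonneg _) h.Pd_pos
    (fun j => Pd_succ d c j) h.Pd_le h.exp
  refine ⟨?_, H2⟩
  intro δ hδ hδR y hy j hj
  refine H1 δ hδ hδR j ?_
  rw [mem_ball, dist_eq_norm] at hj
  calc ‖zz d c j‖ = ‖y + (zz d c j - y)‖ := by congr 1; ring
    _ ≤ ‖y‖ + ‖zz d c j - y‖ := norm_add_le _ _
    _ < 4 * δ := by linarith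

end Pool.Agent.Y356.CA
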